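import Pool.Agent.helper76.MC.Defs

/-! # Project MC: module B0, transport to coordinates -/

namespace Pool.Agent.helper76.MC

open Finset Pool.Agent.helper34.DH Pool.Agent.helper76.FV Pool.Agent.helper76.LP
open Pool.Agent.helper76.UR
open Matrix (SpecialLinearGroup)

theorem exps_conj {V W : Type} [AddCommGroup V] [Module ℂ V] [AddCommGroup W] [Module ℂ W]
    (φ : V ≃ₗ[ℂ] W) (A : V →ₗ[ℂ] V) (s : Multiset QZ) (h : Exps A s) :
    Exps (φ.toLinearMap ∘ₗ A ∘ₗ φ.symm.toLinearMap) s := by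
  obtain ⟨n, b, x, hb, hs⟩ := h
  refine ⟨n, b.map φ, x, ?_, hs⟩
  intro i
  simp only [LinearMap.comp_apply, LinearEquiv.coe_coe, Module.Basis.map_apply,
    LinearEquiv.symm_apply_apply, hb i, map_smul]

open Classical in
theorem isCong_of {N : ℕ} (hN : 0 < N) {V : Type} [AddCommGroup V] [Module ℂ V]
    (ϱ : Representation ℂ (SpecialLinearGroup (Fin 2) (ZMod N)) V) (h1 : ϱ (-1) = 1)
    {s t u : Multiset QZ} (hs : Exps (ϱ (mS N)) s) (ht : Exps (ϱ (mT N)) t)
    (hu : Exps (ϱ (mU N)) u) : IsCong ((s + t + u).filter fun x => x ≠ 0) := by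
  obtain ⟨n, b, x, hb, hsx⟩ := hs
  have φ : V ≃ₗ[ℂ] (Fin n → ℂ) := b.equivFun
  let τ : Representation ℂ (SpecialLinearGroup (Fin 2) (ZMod N)) (Fin n → ℂ) :=
    { toFun := fun g => φ.toLinearMap ∘ₗ (ϱ g) ∘ₗ φ.symm.toLinearMap
      map_one' := by
        ext v
        simp
      map_mul' := by
        intro g h
        apply LinearMap.ext
        intro v
        simp [map_mul, LinearMap.comp_apply, Module.End.mul_apply] }
  refine ⟨N, n, τ, s, t, u, hN, ?_, ?_, ?_, ?_, rfl⟩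
  · apply LinearMap.ext
    intro v
    show φ ((ϱ (-1)) (φ.symm v)) = v
    rw [h1]
    simp
  · exact exps_conj φ _ s ⟨n, b, x, hb, hsx⟩
  · exact exps_conj φ _ t ht
  · exact exps_conj φ _ u hu

end Pool.Agent.helper76.MC
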