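import Pool.Agent.helper76.MC.Defs
import Pool.Agent.helper6.FQ.SF
import Pool.Agent.helper97.FQ.PT

/-! # Project MC: module N3, the elements `ν` modulo `D` -/

namespace Pool.Agent.helper76.MC

open Finset Pool.Agent.helper34.DH Pool.Agent.helper76.FV Pool.Agent.helper76.LP
open Pool.Agent.helper76.UR
open Matrix (SpecialLinearGroup)

theorem N3_split {G : Type*} [CommGroup G] (Γ : ℕ → Subgroup G) (L : List ℕ) (hL : L.Nodup)
    (x : G) (hx : x ∈ Pl Γ L) : ∃ ν : ℕ → G, (∀ i ∈ L, ν i ∈ Γ i) ∧ (L.map ν).prod = x := by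
  induction L generalizing x with
  | nil =>
    have h1 : x = 1 := Subgroup.mem_bot.1 hx
    exact ⟨fun _ => 1, by simp, by simp [h1]⟩
  | cons i L ih =>
    rw [List.nodup_cons] at hL
    obtain ⟨a, ha, b, hb, hab⟩ := Subgroup.mem_sup.1 hx
    obtain ⟨ν, h1, h2⟩ := ih hL.2 b hb
    refine ⟨Function.update ν i a, ?_, ?_⟩
    · intro j hj
      by_cases hji : j = i
      · subst hji
        rw [Function.update_self]
        exact ha
      · rw [Function.update_of_ne hji]
        exact h1 j ((List.mem_cons.1 hj).resolve_left hji)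
    · rw [List.map_cons, List.prod_cons, Function.update_self, ← hab, ← h2]
      congr 2
      apply List.map_congr_left
      intro j hj
      have hji : j ≠ i := by rintro rfl; exact hL.1 hj
      rw [Function.update_of_ne hji]

theorem N3_mem {G : Type*} [CommGroup G] (Γ : ℕ → Subgroup G) (L : List ℕ) (μ : ℕ → G)
    (hμ : ∀ i ∈ L, μ i ∈ Γ i) : (L.map μ).prod ∈ Pl Γ L := by
  induction L with
  | nil => exact Subgroup.mem_bot.2 rfl
  | cons i L ih =>
    rw [List.map_cons, List.prod_cons]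
    exact Subgroup.mul_mem_sup (hμ i List.mem_cons_self)
      (ih fun j hj => hμ j (List.mem_cons_of_mem _ hj))

theorem N3_one {G : Type*} [CommGroup G] (Γ : ℕ → Subgroup G) (L : List ℕ) (hI : Indep Γ L)
    (μ : ℕ → G) (hμ : ∀ i ∈ L, μ i ∈ Γ i) (h : (L.map μ).prod = 1) : ∀ i ∈ L, μ i = 1 := by
  induction L with
  | nil => simp
  | cons i L ih =>
    obtain ⟨hd, hI'⟩ := hI
    rw [List.map_cons, List.prod_cons] at h
    have hm := N3_mem Γ L μ fun j hj => hμ j (List.mem_cons_of_mem _ hj)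
    have h1 : μ i = 1 := by
      refine Subgroup.disjoint_def.1 hd (hμ i List.mem_cons_self) ?_
      rw [eq_inv_of_mul_eq_one_left h]
      exact Subgroup.inv_mem _ hm
    rw [h1, one_mul] at h
    intro j hj
    rcases List.mem_cons.1 hj with rfl | hj
    · exact h1
    · exact ih hI' (fun j hj => hμ j (List.mem_cons_of_mem _ hj)) h j hj

theorem nu_exists (D : ℕ) [NeZero D] (hD : Lform D) (L : List ℕ) (hLn : L.Nodup)
    (hL : L.toFinset = D.primeFactors) :
    Indep (Gam D) L ∧ Pl (Gam D) L = ⊤ ∧ ∃ ν : ℕ → (ZMod D)ˣ,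
      (∀ p ∈ L, ν p ∈ Gam D p ∧ ν p * ν p = 1 ∧ ν p ≠ 1) ∧ (L.map ν).prod = -1 := by
  obtain ⟨hD1, hD2⟩ := hD
  have hmem : ∀ p ∈ L, p ∈ D.primeFactors := fun p hp => by
    rw [← hL, List.mem_toFinset]; exact hp
  have hI : Indep (Gam D) L := indep_Gam D L hLn hmem
  have htop : Pl (Gam D) L = ⊤ := by
    apply Pl_eq_top (Gam D) L hI
    have h1 := (eq_prod_lam D hD1 hD2).2
    rw [← hL, List.prod_toFinset _ hLn] at h1
    rw [← h1, Nat.card_eq_fintype_card, ZMod.card_units_eq_totient]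
  refine ⟨hI, htop, ?_⟩
  obtain ⟨ν, h1, h2⟩ := N3_split (Gam D) L hLn (-1) (by rw [htop]; trivial)
  refine ⟨ν, ?_, h2⟩
  have hsq : ∀ p ∈ L, ν p * ν p = 1 := by
    apply N3_one (Gam D) L hI (fun p => ν p * ν p)
    · intro i hi
      exact (Gam D i).mul_mem (h1 i hi) (h1 i hi)
    · rw [List.prod_map_mul, h2]
      simp
  intro p hp
  refine ⟨h1 p hp, hsq p hp, ?_⟩
  intro hν
  have hpp := Nat.prime_of_mem_primeFactors (hmem p hp)
  have hpd := Nat.dvd_of_mem_primeFactors (hmem p hp)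
  obtain ⟨r, hr, hr2, hrc⟩ : ∃ r, r ∣ D ∧ 2 < r ∧ ∀ q, q.Prime → q ≠ p → Nat.Coprime r q := by
    by_cases h2 : p = 2
    · subst h2
      refine ⟨4, ?_, by norm_num, ?_⟩
      · obtain ⟨k, hk⟩ := hpd
        omega
      · intro q hq hne
        have : Nat.Coprime 2 q := (Nat.coprime_primes Nat.prime_two hq).2 (Ne.symm hne)
        exact Nat.Coprime.pow_left 2 this
    · refine ⟨p, hpd, lt_of_le_of_ne hpp.two_le (Ne.symm h2), ?_⟩
      intro q hq hne
      exact (Nat.coprime_primes hpp hq).2 (Ne.symm hne)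
  have hone : ∀ q ∈ L, ZMod.unitsMap hr (ν q) = 1 := by
    intro q hq
    by_cases hqp : q = p
    · rw [hqp, hν, map_one]
    · have hqq := Nat.prime_of_mem_primeFactors (hmem q hq)
      have hqd := Nat.dvd_of_mem_primeFactors (hmem q hq)
      have hdiv : r ∣ D / q := by
        obtain ⟨k, hk⟩ := hqd
        have hk2 : D / q = k := by rw [hk, Nat.mul_div_cancel_left _ hqq.pos]
        rw [hk2]
        apply (hrc q hqq hqp).dvd_of_dvd_mul_left
        rw [← hk]; exact hr
      exact MonoidHom.mem_ker.1 (Gam_le_ker D q r hr hqd hdiv (h1 q hq))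
  have h3 : ZMod.unitsMap hr (-1) = 1 := by
    rw [← h2, map_list_prod, List.map_map]
    apply List.prod_eq_one
    intro x hx
    obtain ⟨q, hq, rfl⟩ := List.mem_map.1 hx
    exact hone q hq
  have h4 := congrArg Units.val h3
  have h5 : (-1 : ZMod r) = 1 := by
    simpa [ZMod.unitsMap_def] using h4
  have h6 : ((2 : ℕ) : ZMod r) = 0 := by
    have : (1 : ZMod r) + 1 = 0 := by
      nth_rewrite 1 [← h5]; ring
    push_cast
    rw [← this]; norm_num
  rw [ZMod.natCast_eq_zero_iff] at h6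
  have := Nat.le_of_dvd (by norm_num) h6
  omega

end Pool.Agent.helper76.MC
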